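import Mathlib
import Pool.Agent.Helper76.HK.Good
import Pool.Agent.Helper57.HK.Bas

/-!
# The numbers for the first factor, type 2
-/

namespace Pool.Agent.Helper88.HK

open Polynomial Pool.Agent.Helper76.HK

/-- The letters. -/
def zB (m : ℕ) : Option (Fin (m + 1)) → ℚ
  | none => (m : ℚ) + 2
  | some b => ((b : ℕ) : ℚ) + 1

lemma zB_pos (m : ℕ) (b : Option (Fin (m + 1))) : 0 < zB m b := by
  cases b with
  | none => simp only [zB]; positivity
  | some b => simp only [zB]; positivity

lemma zB_inj (m : ℕ) : Function.Injective (zB m) := by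
  intro a b h
  cases a with
  | none =>
    cases b with
    | none => rfl
    | some b =>
      exfalso
      simp only [zB] at h
      have h1 : m + 2 = (b : ℕ) + 1 := by exact_mod_cast h
      have := b.2
      omega
  | some a =>
    cases b with
    | none =>
      exfalso
      simp only [zB] at h
      have h1 : (a : ℕ) + 1 = m + 2 := by exact_mod_cast h
      have := a.2
      omega
    | some b =>
      simp only [zB] at h
      have h1 : (a : ℕ) + 1 = (b : ℕ) + 1 := by exact_mod_cast h
      rw [Fin.ext (show (a : ℕ) = b by omega)]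

/-- The polynomial with the letters as roots. -/
noncomputable def VV (m : ℕ) : ℚ[X] := ∏ b, (X - C (zB m b))

lemma VV_monic (m : ℕ) : (VV m).Monic := monic_prod_of_monic _ _ fun _ _ => monic_X_sub_C _

lemma VV_natDegree (m : ℕ) : (VV m).natDegree = m + 2 := by
  rw [VV, natDegree_prod_of_monic _ _ fun b _ => monic_X_sub_C _]
  simp

lemma VV_eval (m : ℕ) (b : Option (Fin (m + 1))) : (VV m).eval (zB m b) = 0 := by
  rw [VV, eval_prod]
  exact Finset.prod_eq_zero (Finset.mem_univ b) (by simp)

lemma VV_coeff (m k : ℕ) (hk : k ≤ m + 2) : (VV m).coeff k ≠ 0 := by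
  refine Pool.Agent.Helper57.HK.coeff_ne_zero (Finset.univ : Finset (Option (Fin (m + 1))))
    (zB m) (fun i _ => zB_pos m i) ?_
  simpa using hk

/-- The missing index. -/
def pI {m : ℕ} (i : Fin m) : Fin (m + 2) := ⟨i + 1, by omega⟩

/-- The exponents. -/
def eB {m : ℕ} (i : Fin m) (l : Fin (m + 1)) : ℕ := m + 1 - ((pI i).succAbove l : ℕ)

lemma eB_val {m : ℕ} (i : Fin m) (l : Fin (m + 1)) :
    eB i l = if (l : ℕ) ≤ i then m + 1 - l else m - l := by
  unfold eB Fin.succAbove pI
  have hl := l.2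
  by_cases h : (l : ℕ) ≤ i
  · rw [if_pos (by rw [Fin.lt_def]; simp; omega), if_pos h]
    simp
  · rw [if_neg (by rw [Fin.lt_def]; simp; omega), if_neg h]
    simp only [Fin.val_succ]
    omega

lemma eB_le {m : ℕ} (i : Fin m) (l : Fin (m + 1)) : eB i l ≤ m + 1 := Nat.sub_le _ _

lemma eB_inj {m : ℕ} (i : Fin m) : Function.Injective (eB i) := by
  intro a b h
  have h1 := ((pI i).succAbove a).2
  have h2 := ((pI i).succAbove b).2
  have h3 : (pI i).succAbove a = (pI i).succAbove b := by
    apply Fin.ext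
    unfold eB at h
    omega
  exact Fin.succAbove_right_injective h3

/-- The polynomial as a sum over the exponents. -/
lemma VV_sum {m : ℕ} (i : Fin m) : VV m = X ^ (m + 2) + C ((VV m).coeff (m - i)) * X ^ (m - (i : ℕ)) +
    ∑ l, C ((VV m).coeff (eB i l)) * X ^ eB i l := by
  conv_lhs => rw [(VV m).as_sum_range_C_mul_X_pow, VV_natDegree, Finset.sum_range_succ]
  have h1 : (VV m).coeff (m + 2) = 1 := by
    have := (VV_monic m).coeff_natDegree
    rwa [VV_natDegree] at this
  rw [h1, Finset.sum_range, ← Equiv.sum_comp Fin.revPerm, Fin.sum_univ_succAbove _ (pI i)]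
  have h2 : ∀ k : Fin (m + 2), ((Fin.revPerm k : Fin (m + 2)) : ℕ) = m + 1 - k := by
    intro k
    simp only [Fin.revPerm_apply, Fin.val_rev]
    omega
  simp only [h2]
  have h3 : m + 1 - ((pI i : Fin (m + 2)) : ℕ) = m - (i : ℕ) := by
    simp only [pI]
    omega
  rw [h3]
  simp only [eB, C_1, one_mul]
  ring

lemma exists_c {ι : Type*} [Finite ι] (a b : ι → ℚ) (ha : ∀ t, a t ≠ 0) :
    ∃ c : ℚ, c ≠ 0 ∧ ∀ t, a t + c * b t ≠ 0 := by
  have hS : (insert 0 (Set.range fun t => - a t / b t) : Set ℚ).Finite :=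
    (Set.finite_range _).insert 0
  obtain ⟨c, hc⟩ := hS.exists_notMem
  refine ⟨c, fun h => hc (by rw [h]; exact Set.mem_insert _ _), fun t h => hc ?_⟩
  refine Set.mem_insert_of_mem _ ⟨t, ?_⟩
  by_cases hb : b t = 0
  · rw [hb, mul_zero, add_zero] at h
    exact absurd h (ha t)
  · show - a t / b t = c
    rw [div_eq_iff hb]
    linear_combination -h

/-- The coefficients. -/
noncomputable def fB {m : ℕ} (i : Fin m) (c : ℚ) : Fin 3 → Fin (m + 1) → ℚ := fun d l =>
  if d = 0 then (if l = i.castSucc then 1 else 0) - c * (VV m).coeff (eB i l)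
  else if d = 1 then - c * ((if l = 0 then 1 else 0) + if l = i.succ then (VV m).coeff (m - i) else 0)
  else if l = i.succ then -1 else 0

lemma eB_zero {m : ℕ} (i : Fin m) : eB i 0 = m + 1 := by
  rw [eB_val]
  simp

lemma eB_succ {m : ℕ} (i : Fin m) : eB i i.succ = m - i - 1 := by
  rw [eB_val, if_neg (by simp)]
  simp only [Fin.val_succ]
  omega

lemma eB_castSucc {m : ℕ} (i : Fin m) : eB i i.castSucc = m - i + 1 := by
  have := i.2
  rw [eB_val, if_pos (by simp)]
  simp only [Fin.val_castSucc]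
  omega

lemma sum_ite_pow {m : ℕ} (i : Fin m) (j : Fin (m + 1)) (x : ℚ) :
    ∑ l, C (if l = j then x else 0) * X ^ eB i l = C x * X ^ eB i j := by
  rw [Finset.sum_eq_single j]
  · rw [if_pos rfl]
  · intro b _ hb
    rw [if_neg hb, C_0, zero_mul]
  · intro h
    exact absurd (Finset.mem_univ _) h

lemma sum_f0 {m : ℕ} (i : Fin m) (c : ℚ) :
    ∑ l, C (fB i c 0 l) * X ^ eB i l = X ^ (m - (i : ℕ) + 1) -
      C c * (VV m - X ^ (m + 2) - C ((VV m).coeff (m - i)) * X ^ (m - (i : ℕ))) := by
  have h1 : ∀ l, C (fB i c 0 l) * X ^ eB i l =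
      C (if l = i.castSucc then 1 else 0) * X ^ eB i l -
        C c * (C ((VV m).coeff (eB i l)) * X ^ eB i l) := by
    intro l
    simp only [fB, if_true, C_sub, C_mul]
    ring
  rw [Finset.sum_congr rfl fun l _ => h1 l, Finset.sum_sub_distrib, sum_ite_pow, eB_castSucc,
    ← Finset.mul_sum]
  have h2 := VV_sum i
  rw [C_1, one_mul]
  linear_combination C c * h2

lemma sum_f1 {m : ℕ} (i : Fin m) (c : ℚ) :
    ∑ l, C (fB i c 1 l) * X ^ eB i l = - C c * (X ^ (m + 1) +
        C ((VV m).coeff (m - i)) * X ^ (m - (i : ℕ) - 1)) := by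
  have h1 : ∀ l, C (fB i c 1 l) * X ^ eB i l =
      - C c * (C (if l = 0 then 1 else 0) * X ^ eB i l +
        C (if l = i.succ then (VV m).coeff (m - i) else 0) * X ^ eB i l) := by
    intro l
    have e : fB i c 1 l = - c * ((if l = 0 then 1 else 0) +
        if l = i.succ then (VV m).coeff (m - i) else 0) := by
      simp [fB]
    rw [e]
    simp only [C_mul, C_add, C_neg]
    ring
  rw [Finset.sum_congr rfl fun l _ => h1 l, ← Finset.mul_sum, Finset.sum_add_distrib,
    sum_ite_pow, sum_ite_pow, eB_zero, eB_succ, C_1, one_mul]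

lemma sum_f2 {m : ℕ} (i : Fin m) (c : ℚ) :
    ∑ l, C (fB i c 2 l) * X ^ eB i l = - X ^ (m - (i : ℕ) - 1) := by
  have h1 : ∀ l, C (fB i c 2 l) * X ^ eB i l =
      C (if l = i.succ then -1 else 0) * X ^ eB i l := by
    intro l
    have e : fB i c 2 l = if l = i.succ then -1 else 0 := by
      simp [fB]
    rw [e]
  rw [Finset.sum_congr rfl fun l _ => h1 l, sum_ite_pow, eB_succ, C_neg, C_1, neg_one_mul]

/-- Evaluation of a sum. -/
lemma eval_sum_f {m : ℕ} (i : Fin m) (g : Fin (m + 1) → ℚ) (w : ℚ) :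
    ∑ l, g l * w ^ eB i l = (∑ l, C (g l) * X ^ eB i l).eval w := by
  rw [eval_finsetSum]
  simp

theorem head2 {m : ℕ} (hm : 2 ≤ m) (i : Fin m) : ∃ H : Head m, H.typ = some i := by
  obtain ⟨e, he⟩ : ∃ e, m - (i : ℕ) = e + 1 := ⟨m - i - 1, by have := i.2; omega⟩
  have hei : m = e + 1 + i := by have := i.2; omega
  set v : ℚ := (VV m).coeff (m - i) with hv
  -- the constant
  obtain ⟨c, hc0, hc⟩ := exists_c (ι := Option (Fin (m + 1)) ⊕ (Option (Fin (m + 1)) ×
      Option (Fin (m + 1))) ⊕ Fin 2 ⊕ Option (Fin (m + 1)))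
    (Sum.elim (fun b => 1 + zB m b) (Sum.elim (fun b => zB m b.2 + zB m b.1) (Sum.elim (fun _ => 1)
      fun b => if b = some 0 then 1 else zB m b - 1)))
    (Sum.elim (fun _ => 1 + v) (Sum.elim (fun b => zB m b.1 ^ ((i : ℕ) + 2) + v)
      (Sum.elim (fun t => if t = 0 then 1 + v else - (VV m).coeff (eB i ⟨1, by omega⟩))
        fun b => zB m b ^ ((i : ℕ) + 2) - 1)))
    (by
      rintro (b | b | b | b)
      · have := zB_pos m b
        show 1 + zB m b ≠ 0
        positivity
      · have h1 := zB_pos m b.1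
        have h2 := zB_pos m b.2
        show zB m b.2 + zB m b.1 ≠ 0
        positivity
      · exact one_ne_zero
      · show (if b = some 0 then 1 else zB m b - 1) ≠ 0
        split_ifs with hb
        · exact one_ne_zero
        · intro h
          exact hb (zB_inj m (by rw [sub_eq_zero.1 h]; simp [zB])))
  have c1 : ∀ b, 1 + zB m b + c * (1 + v) ≠ 0 := fun b => hc (.inl b)
  have c2 : ∀ b b', zB m b' + zB m b + c * (zB m b ^ ((i : ℕ) + 2) + v) ≠ 0 :=
    fun b b' => hc (.inr (.inl (b, b')))
  have c3 : 1 + c * (1 + v) ≠ 0 := hc (.inr (.inr (.inl 0)))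
  have c4 : 1 + c * - (VV m).coeff (eB i ⟨1, by omega⟩) ≠ 0 := hc (.inr (.inr (.inl 1)))
  have c5 : ∀ b, b ≠ some 0 → zB m b - 1 + c * (zB m b ^ ((i : ℕ) + 2) - 1) ≠ 0 := by
    intro b hb
    have h := hc (.inr (.inr (.inr b)))
    simp only [Sum.elim_inr, if_neg hb] at h
    exact h
  let iC : Fin (m + 1) := if (i : ℕ) = 0 then ⟨2, by omega⟩ else ⟨1, by omega⟩
  have hiC : iC ≠ i.succ := by
    intro h
    have h1 := congrArg Fin.val h
    rw [Fin.val_succ] at h1
    by_cases h0 : (i : ℕ) = 0
    · simp only [iC, if_pos h0] at h1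
      omega
    · simp only [iC, if_neg h0] at h1
      omega
  have hiC0 : iC ≠ 0 := by
    intro h
    have h1 := congrArg Fin.val h
    rw [Fin.val_zero] at h1
    by_cases h0 : (i : ℕ) = 0
    · simp only [iC, if_pos h0] at h1
      omega
    · simp only [iC, if_neg h0] at h1
      omega
  have z1 : zB m (some 0) = 1 := by simp [zB]
  refine ⟨{ typ := some i, ep := eB i, dd := fun s => if some i = some s then 2 else 1,
            f := fB i c, h := 0, iA := i.succ, iC := iC, z := zB m,
            ρ := fun b => - zB m b - c * (zB m b ^ ((i : ℕ) + 2) + v),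
            κ := fun b => - zB m b ^ e, μ := -c, hl := ?_, hs := ?_, hdd := ?_, hf2 := ?_,
            inj := zB_inj m, ne0 := fun b => (zB_pos m b).ne', z1 := z1, κ0 := ?_, μ0 := ?_,
            phi := ?_, psi := ?_, hρ0 := ?_, hρ1 := ?_, hρ := ?_, hρρ := ?_, bas := ?_, hAC := hiC.symm,
            hhA := ?_, hhC := hiC0.symm, A2 := ?_, C2 := ?_, C1 := ?_, C0 := ?_ }, rfl⟩
  · rw [eB_val, if_neg (by have := i.2; simp)]
    simp
  · intro s
    have h1 := s.2
    have h2 := i.2
    rw [eB_val, eB_val]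
    simp only [Fin.val_castSucc, Fin.val_succ, Option.some.injEq]
    by_cases h : i = s
    · subst h
      rw [if_pos le_rfl, if_neg (by omega), if_pos rfl]
      show m + 1 - (i : ℕ) = m - (i + 1) + 2
      omega
    · have h' : (i : ℕ) ≠ s := fun h' => h (Fin.ext h')
      rw [if_neg h]
      show _ = _ + 1
      split_ifs <;> omega
  · intro s
    rfl
  · intro j hj l
    rw [Option.some.injEq] at hj
    subst hj
    simp [fB]
  · intro b
    exact neg_ne_zero.2 (pow_ne_zero _ (zB_pos m b).ne')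
  · exact neg_ne_zero.2 hc0
  · intro b x
    have e0 := sum_f0 i c
    have e1 := sum_f1 i c
    have e2 := sum_f2 i c
    rw [← hv] at e0 e1
    rw [he, Nat.add_sub_cancel] at e1
    rw [he] at e0
    rw [he, Nat.add_sub_cancel] at e2
    rw [Fin.sum_univ_three, eval_sum_f, eval_sum_f, eval_sum_f, e0, e1, e2]
    simp only [eval_sub, eval_add, eval_mul, eval_neg, eval_pow, eval_X, eval_C, VV_eval]
    have p1 : zB m b ^ (m + 1) = zB m b ^ e * zB m b ^ ((i : ℕ) + 2) := by
      rw [← pow_add]
      congr 1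
      omega
    have p2 : zB m b ^ (m + 2) = zB m b ^ e * zB m b ^ ((i : ℕ) + 2) * zB m b := by
      rw [← p1, ← pow_succ]
    rw [p1, p2]
    simp only [Fin.val_zero, Fin.val_one, Fin.val_two]
    ring
  · have e0 := sum_f0 i c
    have e1 := sum_f1 i c
    have e2 := sum_f2 i c
    rw [← hv] at e0 e1
    rw [he, Nat.add_sub_cancel] at e1
    rw [he] at e0
    rw [he, Nat.add_sub_cancel] at e2
    rw [Fin.sum_univ_three, e0, e1, e2, C_neg]
    show _ = - C c * VV m
    simp only [Fin.val_zero, Fin.val_one, Fin.val_two]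
    ring
  · show - zB m (some 0) - c * (zB m (some 0) ^ ((i : ℕ) + 2) + v) ≠ 0
    rw [z1, one_pow]
    intro h
    apply c3
    linear_combination -h
  · intro b
    show - zB m (some 0) - c * (zB m (some 0) ^ ((i : ℕ) + 2) + v) ≠ zB m b
    rw [z1, one_pow]
    intro h
    apply c1 b
    linear_combination -h
  · intro b b' _ h
    apply c2 b b'
    linear_combination h
  · intro b hb h
    apply c5 b hb
    rw [z1, one_pow] at h
    linear_combination -h
  · exact Pool.Agent.Helper57.HK.det_pow_ne_zero (fun b => zB m (some b))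
      (fun b => zB_pos m _) (fun a b h => Option.some_injective _ (zB_inj m h)) (eB i) (eB_inj i)
      (eB_le i)
  · exact (Fin.succ_ne_zero i).symm
  · simp [fB]
  · simp [fB, hiC]
  · simp [fB, hiC, hiC0]
  · have h0 := VV_coeff m (eB i iC) ((eB_le i iC).trans (by omega))
    by_cases h : iC = i.castSucc
    · have h1 : iC = ⟨1, by omega⟩ := by
        by_cases h2 : (i : ℕ) = 0
        · exfalso
          have h3 := congrArg Fin.val h
          simp only [iC, if_pos h2, Fin.val_castSucc] at h3
          omega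
        · simp only [iC, if_neg h2]
      simp only [fB, if_true, if_pos h]
      rw [h1]
      intro h3
      apply c4
      linear_combination h3
    · simp only [fB, if_true, if_neg h]
      rw [zero_sub]
      exact neg_ne_zero.2 (mul_ne_zero hc0 h0)

end Pool.Agent.Helper88.HK
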