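import Mathlib
import Pool.Agent.Helper88.HK.Head2
import Pool.Agent.Helper82.HK.Head1
import Pool.Agent.Helper57.HK.Tail

namespace Pool.Agent.Helper88.HK

open Pool.Agent.Helper76.HK Pool.Agent.Helper64.HK Pool.Agent.Helper24.HK

theorem exists_good {k m : ℕ} (hk : 2 ≤ k) (hm : 2 ≤ m) (a : Fin (k + 1) → Fin (m + 1)) :
    ∃ P N s zz, Good (k := k) a P N s zz := by
  have h12 : (⟨0, by omega⟩ : Fin k) ≠ ⟨1, by omega⟩ := by
    intro h
    simpa using congrArg Fin.val h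
  by_cases h : a (⟨0, by omega⟩ : Fin k).succ = a 0
  · obtain ⟨H, hH⟩ := Pool.Agent.Helper82.HK.HeadOne.head1 hm
    exact Pool.Agent.Helper57.HK.Tail.good_of_head hm _ _ h12 a H (Or.inl ⟨hH, h⟩)
  · obtain ⟨i, hi⟩ := Fin.exists_succAbove_eq (Ne.symm h)
    obtain ⟨H, hH⟩ := head2 hm i
    exact Pool.Agent.Helper57.HK.Tail.good_of_head hm _ _ h12 a H (Or.inr ⟨i, hH, hi⟩)

end Pool.Agent.Helper88.HK
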